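import Pool.Agent.U758.CF.Small

/-!
# Large rank: divisors `C_d` with `d / 2` a perfect square
-/

set_option autoImplicit false

namespace Pool.Agent.U758.CF

open Pool.Agent.Y95.Q Pool.Agent.Y95.Q.H4 Pool.Agent.N801.CF Pool.Agent.X328.CF Module

variable {X : CubicFourfold} {H : H4 X}

/-- `X` is in a Hassett divisor `C_d` such that `d / 2` is a perfect square. It is known that this
means that the variety of lines `F(X)` has a rational Lagrangian fibration. -/
def LagrangianFibration {X : CubicFourfold} (H : H4 X) : Prop :=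
  ∃ s : ℤ, s ≠ 0 ∧ InDivisor H (2 * s ^ 2)

theorem lagrangian_of_square (hH : H.IsCohomology) {w : Fin 23 → ℤ} {s : ℤ} (hw : H.IsHodge w)
    (hs : s ≠ 0) (hd : H.disc w = 2 * s ^ 2) : LagrangianFibration H := by
  have h0 : 0 < H.disc w := by rw [hd]; positivity
  obtain ⟨v, m, hm, hv, hsat, hdv⟩ := exists_sat hH hw h0
  have he := disc_half hH v
  have h1 : m ^ 2 * (H.disc v / 2) = s ^ 2 := by
    have : 2 * (m ^ 2 * (H.disc v / 2)) = 2 * s ^ 2 := by
      rw [← hd, hdv]
      conv_rhs => rw [he]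
      ring
    omega
  obtain ⟨t, rfl⟩ : m ∣ s := (Int.pow_dvd_pow_iff two_ne_zero).1 ⟨_, h1.symm⟩
  have hm2 : m ^ 2 ≠ 0 := pow_ne_zero _ hm.ne'
  have h2 : H.disc v / 2 = t ^ 2 := by
    apply mul_left_cancel₀ hm2
    rw [h1]
    ring
  refine ⟨t, ?_, v, hv, hsat, by rw [← h2]; exact he⟩
  rintro rfl
  exact hs (mul_zero _)

/-- the equivalences, from the local-global principle -/
theorem equivalences (hH : H.IsCohomology)
    (h : (∀ p : ℕ, p.Prime → p % 3 ≠ 1 → ∃ v, H.IsHodge v ∧ AdmissibleAt p (H.disc v)) →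
      HilbertSquare H) :
    (HilbertSquare H ↔ AssociatedK3 H) ∧
    (HilbertSquare H ↔ ∀ p : ℕ, p.Prime → ∃ v, H.IsHodge v ∧ AdmissibleAt p (H.disc v)) := by
  rw [associatedK3_iff]
  refine ⟨⟨hasK3_of_hilbert hH, fun hk => h fun p hp _ => ((hasK3_iff hH).1 hk).2 p hp⟩,
    ⟨fun hk => (local_of_hilbert hH hk).2, fun hk => h fun p hp _ => hk p hp⟩⟩

end Pool.Agent.U758.CF
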