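import Pool.Agent.U758.CF.Rank

/-!
# Lattices of rank three with an associated K3 surface and without a Hilbert square: arithmetic
-/

set_option autoImplicit false

namespace Pool.Agent.U758.CF

/-- `3` is not a square modulo the primes `5` and `7` modulo `12` -/
theorem inert_three {p : ℕ} (hp : p.Prime) (h : p % 12 = 5 ∨ p % 12 = 7) {x k : ℤ}
    (hd : (p : ℤ) ∣ x ^ 2 - 3 * k ^ 2) : (p : ℤ) ∣ x ∧ (p : ℤ) ∣ k := by
  have : Fact p.Prime := ⟨hp⟩
  have hpp := Nat.prime_iff_prime_int.1 hp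
  have hodd : Odd p := Nat.odd_iff.2 (by omega)
  have hJ : jacobiSym 3 p = -1 := by
    rw [jacobiSym.mod_right 3 hodd]
    have : p % (4 * (3 : ℤ).natAbs) = p % 12 := rfl
    rw [this]
    rcases h with h | h <;> rw [h] <;> norm_num
  have hk : (p : ℤ) ∣ k := by
    by_contra hk
    have hkz : ((k : ℤ) : ZMod p) ≠ 0 := fun h => hk ((ZMod.intCast_zmod_eq_zero_iff_dvd _ p).1 h)
    have h1 := (ZMod.intCast_zmod_eq_zero_iff_dvd _ p).2 hd
    push_cast at h1
    have hsq : IsSquare (((3 : ℤ)) : ZMod p) := by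
      refine ⟨x / k, ?_⟩
      push_cast
      field_simp
      linear_combination -h1
    have h30 : (((3 : ℤ)) : ZMod p) ≠ 0 := by
      intro h3
      rw [ZMod.intCast_zmod_eq_zero_iff_dvd] at h3
      have h4 : p ∣ 3 := by exact_mod_cast h3
      rw [(Nat.prime_dvd_prime_iff_eq hp Nat.prime_three).1 h4] at h
      omega
    have h2 : legendreSym p 3 = 1 := (legendreSym.eq_one_iff p h30).2 hsq
    rw [jacobiSym.legendreSym.to_jacobiSym, hJ] at h2
    norm_num at h2
  refine ⟨?_, hk⟩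
  have h3 : (p : ℤ) ∣ x ^ 2 := by
    obtain ⟨a, ha⟩ := hd
    obtain ⟨b, hb⟩ := hk
    exact ⟨a + 3 * p * b ^ 2, by rw [hb] at ha; linear_combination ha⟩
  exact hpp.dvd_of_dvd_pow h3

theorem even_val {p : ℕ} (hp : p.Prime) (h : p % 12 = 5 ∨ p % 12 = 7) (N : ℕ) :
    ∀ x k : ℤ, (x ^ 2 - 3 * k ^ 2).natAbs = N → N ≠ 0 → Even (N.factorization p) := by
  induction N using Nat.strong_induction_on with
  | _ N ih =>
    intro x k hN hN0
    by_cases hd : p ∣ N
    · have hd' : (p : ℤ) ∣ x ^ 2 - 3 * k ^ 2 := Int.natCast_dvd.2 (by rw [hN]; exact hd)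
      obtain ⟨⟨x', rfl⟩, ⟨k', rfl⟩⟩ := inert_three hp h hd'
      have e : ((p : ℤ) * x') ^ 2 - 3 * ((p : ℤ) * k') ^ 2 = (p : ℤ) ^ 2 * (x' ^ 2 - 3 * k' ^ 2) := by
        ring
      rw [e, Int.natAbs_mul, Int.natAbs_pow, Int.natAbs_natCast] at hN
      set N' := (x' ^ 2 - 3 * k' ^ 2).natAbs with hN'
      have hN'0 : N' ≠ 0 := by
        rintro h0
        rw [h0, mul_zero] at hN
        exact hN0 hN.symm
      have hlt : N' < N := by
        rw [← hN]
        have h2 : 1 < p ^ 2 := Nat.one_lt_pow (by norm_num) hp.one_lt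
        nlinarith [Nat.pos_of_ne_zero hN'0]
      obtain ⟨r, hr⟩ := ih N' hlt x' k' hN'.symm hN'0
      rw [← hN, Nat.factorization_mul (pow_ne_zero _ hp.ne_zero) hN'0, Finsupp.add_apply,
        hp.factorization_pow, Finsupp.single_eq_same, hr]
      exact ⟨1 + r, by ring⟩
    · rw [Nat.factorization_eq_zero_of_not_dvd hd]
      exact ⟨0, rfl⟩

theorem mod_twelve {n : ℕ} (hn : n ≠ 0) (h2 : ¬ 2 ∣ n) (h3 : ¬ 3 ∣ n)
    (h : ∀ p, p.Prime → (p % 12 = 5 ∨ p % 12 = 7) → Even (n.factorization p)) :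
    n % 12 = 1 ∨ n % 12 = 11 := by
  induction n using Nat.recOnPosPrimePosCoprime with
  | prime_pow p k hp hk =>
    have h2' : ¬ 2 ∣ p := fun h => h2 (h.trans (dvd_pow_self p hk.ne'))
    have h3' : ¬ 3 ∣ p := fun h => h3 (h.trans (dvd_pow_self p hk.ne'))
    have hsq : ∀ r : ℕ, (r = 1 ∨ r = 11) → ∀ j : ℕ, r ^ j % 12 = 1 ∨ r ^ j % 12 = 11 := by
      intro r hr j
      induction j with
      | zero => left; rfl
      | succ j ih =>
        rw [pow_succ, Nat.mul_mod]
        rcases hr with rfl | rfl <;> rcases ih with h | h <;> rw [h] <;> norm_num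
    have hcases : p % 12 = 1 ∨ p % 12 = 11 ∨ p % 12 = 5 ∨ p % 12 = 7 := by omega
    rcases hcases with hc | hc | hc
    · rw [Nat.pow_mod, hc]; exact hsq 1 (Or.inl rfl) k
    · rw [Nat.pow_mod, hc]; exact hsq 11 (Or.inr rfl) k
    · have he := h p hp hc
      rw [hp.factorization_pow, Finsupp.single_eq_same] at he
      obtain ⟨j, hj⟩ := he
      have h1 : p ^ 2 % 12 = 1 := by
        rw [Nat.pow_mod]
        rcases hc with hc | hc <;> rw [hc]
      rw [hj, ← two_mul, pow_mul, Nat.pow_mod, h1]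
      exact hsq 1 (Or.inl rfl) j
  | zero => exact absurd rfl hn
  | one => left; rfl
  | coprime a b ha hb hab iha ihb =>
    have h0 : ∀ p, p.Prime → (p % 12 = 5 ∨ p % 12 = 7) →
        Even (a.factorization p) ∧ Even (b.factorization p) := by
      intro p hp hc
      have he := h p hp hc
      rw [Nat.factorization_mul (by omega) (by omega), Finsupp.add_apply] at he
      by_cases hpa : p ∣ a
      · have hpb : ¬ p ∣ b := fun hpb => hp.one_lt.ne' (Nat.dvd_one.1 (hab ▸ Nat.dvd_gcd hpa hpb))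
        rw [Nat.factorization_eq_zero_of_not_dvd hpb, add_zero] at he
        exact ⟨he, by rw [Nat.factorization_eq_zero_of_not_dvd hpb]; exact ⟨0, rfl⟩⟩
      · rw [Nat.factorization_eq_zero_of_not_dvd hpa, zero_add] at he
        exact ⟨by rw [Nat.factorization_eq_zero_of_not_dvd hpa]; exact ⟨0, rfl⟩, he⟩
    have h4 := iha (by omega) (fun h => h2 (h.mul_right _)) (fun h => h3 (h.mul_right _))
      fun p hp hc => (h0 p hp hc).1
    have h5 := ihb (by omega) (fun h => h2 (h.mul_left _)) (fun h => h3 (h.mul_left _))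
      fun p hp hc => (h0 p hp hc).2
    rw [Nat.mul_mod]
    rcases h4 with h4 | h4 <;> rcases h5 with h5 | h5 <;> rw [h4, h5] <;> norm_num

/-- **No value `n ^ 2 + n + 1`**, first family. -/
theorem no_value {a b : ℤ} (ha : 2 ∣ a) (hb2 : ¬ 2 ∣ b) (hb3 : 3 ∣ b) (x y n : ℤ) :
    3 * (a ^ 2 * x ^ 2 + b ^ 2 * y ^ 2) ≠ n ^ 2 + n + 1 := by
  intro h
  obtain ⟨a', rfl⟩ := ha
  obtain ⟨b', hb'⟩ := hb3
  have hm : (3 : ℤ) ∣ (2 * n + 1) ^ 2 := by
    exact ⟨4 * ((2 * a') ^ 2 * x ^ 2 + b ^ 2 * y ^ 2) - 1, by linear_combination -4 * h⟩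
  obtain ⟨k, hk⟩ := Int.prime_three.dvd_of_dvd_pow hm
  have e : (4 * a' * x) ^ 2 - 3 * k ^ 2 = -((2 * b * y - 1) * (2 * b * y + 1)) := by
    have h3 : 3 * ((4 * a' * x) ^ 2 - 3 * k ^ 2) = 3 * (-((2 * b * y - 1) * (2 * b * y + 1))) := by
      have h4 : (2 * n + 1) ^ 2 = (3 * k) ^ 2 := by rw [hk]
      linear_combination 4 * h + h4
    omega
  have hk2 : k % 2 = 1 := by omega
  -- the residue of `2 b y + 1`
  have hz : (2 * b * y + 1) % 12 = 1 := by
    set u := 2 * b * y + 1 with hu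
    set v := 2 * b * y - 1 with hv
    obtain ⟨c, hc⟩ : ∃ c, u = 6 * c + 1 := ⟨b' * y, by rw [hu, hb']; ring⟩
    have hvu : v = u - 2 := by rw [hu, hv]; ring
    have hu0 : u ≠ 0 := by omega
    have hv0 : v ≠ 0 := by omega
    have hun : u.natAbs ≠ 0 := Int.natAbs_ne_zero.2 hu0
    have hvn : v.natAbs ≠ 0 := Int.natAbs_ne_zero.2 hv0
    have hprod : ((4 * a' * x) ^ 2 - 3 * k ^ 2).natAbs = v.natAbs * u.natAbs := by
      rw [e, Int.natAbs_neg, Int.natAbs_mul]
    have hmod : u.natAbs % 12 = 1 ∨ u.natAbs % 12 = 11 := by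
      refine mod_twelve hun (by omega) (by omega) fun p hp hc => ?_
      by_cases hpu : p ∣ u.natAbs
      · have hpv : ¬ p ∣ v.natAbs := by
          intro hpv
          have h5 : (p : ℤ) ∣ u := Int.natCast_dvd.2 hpu
          have h6 : (p : ℤ) ∣ v := Int.natCast_dvd.2 hpv
          have h7 : (p : ℤ) ∣ 2 := by
            have := dvd_sub h5 h6
            rwa [hvu, sub_sub_cancel] at this
          have h8 : p ∣ 2 := by exact_mod_cast h7
          rw [(Nat.prime_dvd_prime_iff_eq hp Nat.prime_two).1 h8] at hc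
          omega
        have h5 := even_val hp hc _ _ _ hprod (mul_ne_zero hvn hun)
        rw [Nat.factorization_mul hvn hun, Finsupp.add_apply,
          Nat.factorization_eq_zero_of_not_dvd hpv, zero_add] at h5
        exact h5
      · rw [Nat.factorization_eq_zero_of_not_dvd hpu]
        exact ⟨0, rfl⟩
    omega
  have hy : y % 2 = 0 := by
    by_contra hy
    have h1 : b * y % 2 = 1 := by
      rw [Int.mul_emod, show b % 2 = 1 by omega, show y % 2 = 1 by omega]
      norm_num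
    have h2 : 2 * b * y = 2 * (b * y) := by ring
    rw [h2] at hz
    omega
  obtain ⟨y', rfl⟩ : ∃ y', y = 2 * y' := ⟨y / 2, by omega⟩
  have h16 : 3 * k ^ 2 = 16 * ((a' * x) ^ 2 + (b * y') ^ 2) - 1 := by linear_combination -e
  generalize (a' * x) ^ 2 + (b * y') ^ 2 = t at h16
  have hk8 := odd_sq_mod_eight hk2
  omega

/-- the squares modulo thirteen -/
theorem mod_thirteen {n : ℕ} (hn : n ≠ 0) (h : ∀ p, p.Prime → p ∣ n → jacobiSym p 13 = 1) :
    jacobiSym n 13 = 1 := by
  induction n using Nat.recOnPosPrimePosCoprime with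
  | prime_pow p k hp hk =>
    have h1 := h p hp (dvd_pow_self p hk.ne')
    push_cast
    rw [jacobiSym.pow_left, h1, one_pow]
  | zero => exact absurd rfl hn
  | one => norm_num
  | coprime a b ha hb _ iha ihb =>
    have h1 := iha (by omega) fun p hp hd => h p hp (hd.mul_right _)
    have h2 := ihb (by omega) fun p hp hd => h p hp (hd.mul_left _)
    push_cast
    rw [jacobiSym.mul_left, h1, h2, one_mul]

/-- **No value `n ^ 2 + n + 1`**, the second example. -/
theorem no_value' (x y n : ℤ) : 13 * (3 * x ^ 2 + 3 * x * y + 4 * y ^ 2) ≠ n ^ 2 + n + 1 := by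
  intro h
  obtain ⟨m, hm⟩ : ∃ m, m = 2 * n + 1 := ⟨_, rfl⟩
  obtain ⟨X, hX⟩ : ∃ X, X = 2 * x + y := ⟨_, rfl⟩
  have e : 39 * X ^ 2 + 169 * y ^ 2 = m ^ 2 + 3 := by
    rw [hX, hm]
    linear_combination 4 * h
  have hm2 : m % 2 = 1 := by omega
  have hm8 := odd_sq_mod_eight hm2
  have hy : y % 2 = 0 := by
    by_contra hy
    have h1 := odd_sq_mod_eight (m := y) (by omega)
    have h2 := odd_sq_mod_eight (m := X) (by omega)
    omega
  have hX2 : X % 2 = 0 := by omega
  have hprod : 3 * (13 * X ^ 2 - 1) = (m - 13 * y) * (m + 13 * y) := by linear_combination e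
  have hz2 : (m - 13 * y) % 2 = 1 := by omega
  have hz0 : m - 13 * y ≠ 0 := by omega
  have key : jacobiSym ((m - 13 * y).natAbs : ℤ) 13 = 1 := by
    refine mod_thirteen (Int.natAbs_ne_zero.2 hz0) fun p hp hd => ?_
    have : Fact p.Prime := ⟨hp⟩
    have hpp := Nat.prime_iff_prime_int.1 hp
    have hdz : (p : ℤ) ∣ m - 13 * y := Int.natCast_dvd.2 hd
    have hp2 : p ≠ 2 := by
      rintro rfl
      push_cast at hdz
      omega
    have hpodd : Odd p := hp.odd_of_ne_two hp2
    have h1 : (p : ℤ) ∣ 3 * (13 * X ^ 2 - 1) := by rw [hprod]; exact hdz.mul_right _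
    rcases hpp.dvd_or_dvd h1 with h3 | h3
    · have h4 : p ∣ 3 := by exact_mod_cast h3
      rw [(Nat.prime_dvd_prime_iff_eq hp Nat.prime_three).1 h4]
      norm_num
    · have h5 := (ZMod.intCast_zmod_eq_zero_iff_dvd _ p).2 h3
      push_cast at h5
      have hXz : ((X : ℤ) : ZMod p) ≠ 0 := by
        intro h0
        rw [h0] at h5
        norm_num at h5
      have hsq : IsSquare (((13 : ℤ)) : ZMod p) := by
        refine ⟨1 / X, ?_⟩
        push_cast
        field_simp
        linear_combination h5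
      have h130 : (((13 : ℤ)) : ZMod p) ≠ 0 := by
        intro h0
        push_cast at h0
        rw [h0] at h5
        norm_num at h5
      have h6 : legendreSym p 13 = 1 := (legendreSym.eq_one_iff p h130).2 hsq
      rw [jacobiSym.legendreSym.to_jacobiSym] at h6
      have h7 := jacobiSym.quadratic_reciprocity_one_mod_four (a := 13) (b := p) (by norm_num) hpodd
      push_cast at h7
      rw [← h7]
      exact h6
  have hmod : jacobiSym (m - 13 * y) 13 = 1 := by
    rcases Int.natAbs_eq (m - 13 * y) with h0 | h0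
    · rw [h0]; exact key
    · rw [h0, jacobiSym.neg _ (by decide), key]
      norm_num
  have hm13 : jacobiSym m 13 = 1 := by
    rw [jacobiSym.mod_left] at hmod ⊢
    have : (m - 13 * y) % ((13 : ℕ) : ℤ) = m % ((13 : ℕ) : ℤ) := by push_cast; omega
    rwa [this] at hmod
  have hres : m ^ 2 % 13 = 10 := by omega
  have hcases : m % 13 = 6 ∨ m % 13 = 7 := by
    have h0 : m % 13 = 0 ∨ m % 13 = 1 ∨ m % 13 = 2 ∨ m % 13 = 3 ∨ m % 13 = 4 ∨ m % 13 = 5 ∨
      m % 13 = 6 ∨ m % 13 = 7 ∨ m % 13 = 8 ∨ m % 13 = 9 ∨ m % 13 = 10 ∨ m % 13 = 11 ∨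
      m % 13 = 12 := by omega
    rw [pow_two, Int.mul_emod] at hres
    rcases h0 with h | h | h | h | h | h | h | h | h | h | h | h | h <;> rw [h] at hres <;>
      first | (left; exact h) | (right; exact h) | (norm_num at hres)
  rw [jacobiSym.mod_left] at hm13
  push_cast at hm13
  rcases hcases with h0 | h0 <;> rw [h0] at hm13 <;> norm_num at hm13

end Pool.Agent.U758.CF
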