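import Pool.Agent.U758.CF.Contra

/-!
# Cubic fourfolds with an associated K3 surface and without a Hilbert square
-/

set_option autoImplicit false

namespace Pool.Agent.U758.CF

open Pool.Agent.Y95.Q Pool.Agent.Y95.Q.H4 Pool.Agent.N801.CF Pool.Agent.X328.CF Module

variable {X : CubicFourfold} {H : H4 X}

/-- The group of the Hodge classes of `X` has a basis `h, e_1, e_2` with the matrix of products `G`. -/
def HodgeLattice {X : CubicFourfold} (H : H4 X) (G : Matrix (Fin 3) (Fin 3) ℤ) : Prop :=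
  ∃ e : Fin 3 → Fin 23 → ℤ, e 0 = H.h ∧ (∀ i, H.IsHodge (e i)) ∧
    (∀ i j, H.ip (e i) (e j) = G i j) ∧
    ∀ v, H.IsHodge v → ∃ c : Fin 3 → ℤ, v = ∑ i, c i • e i

theorem disc_gram {e : Fin 3 → Fin 23 → ℤ} {G : Matrix (Fin 3) (Fin 3) ℤ} (h0 : e 0 = H.h)
    (hG : ∀ i j, H.ip (e i) (e j) = G i j) (c : Fin 3 → ℤ) :
    H.disc (∑ i, c i • e i) = 3 * (∑ i, ∑ j, c i * c j * G i j) - (∑ j, c j * G 0 j) ^ 2 := by
  rw [disc, ← h0]
  have h1 : H.ip (∑ i, c i • e i) (∑ i, c i • e i) = ∑ i, ∑ j, c i * c j * G i j := by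
    simp only [Fin.sum_univ_three, ip_add_left, ip_add_right, ip_smul_left, ip_smul_right, hG]
    ring
  have h2 : H.ip (e 0) (∑ i, c i • e i) = ∑ j, c j * G 0 j := by
    simp only [Fin.sum_univ_three, ip_add_right, ip_smul_right, hG]
  rw [h1, h2]

theorem no_hilbert (hH : H.IsCohomology) {G : Matrix (Fin 3) (Fin 3) ℤ} (hL : HodgeLattice H G)
    (hno : ∀ (c : Fin 3 → ℤ) (n : ℤ),
      3 * (∑ i, ∑ j, c i * c j * G i j) - (∑ j, c j * G 0 j) ^ 2 ≠ 2 * (n ^ 2 + n + 1)) :
    ¬ HilbertSquare H := by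
  obtain ⟨e, h0, -, hG, hsp⟩ := hL
  rw [hilbert_iff hH]
  rintro ⟨v, n, hv, hd⟩
  obtain ⟨c, rfl⟩ := hsp v hv
  rw [disc_gram h0 hG] at hd
  exact hno c n hd

/-- the family -/
theorem family (hH : H.IsCohomology) {a b : ℤ} (ha : 2 ∣ a) (hb2 : ¬ 2 ∣ b) (hb3 : 3 ∣ b)
    (hab : IsCoprime a b) (hL : HodgeLattice H !![3, 0, 0; 0, 2 * a ^ 2, 0; 0, 0, 2 * b ^ 2]) :
    H.HasK3 ∧ ¬ HilbertSquare H := by
  constructor
  · obtain ⟨e, h0, hh, hG, -⟩ := hL
    have d1 : H.disc (e 1) = 6 * a ^ 2 := by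
      have g1 := hG 1 1
      have g2 := hG 0 1
      simp at g1 g2
      rw [h0] at g2
      rw [disc, g1, g2]
      ring
    have d2 : H.disc (e 2) = 6 * b ^ 2 := by
      have g1 := hG 2 2
      have g2 := hG 0 2
      simp at g1 g2
      rw [h0] at g2
      rw [disc, g1, g2]
      ring
    have hb0 : b ≠ 0 := by rintro rfl; exact hb2 (dvd_zero _)
    have ha3 : ¬ 3 ∣ a := by
      intro h
      have := hab.isUnit_of_dvd' h hb3
      rw [Int.isUnit_iff] at this
      omega
    rw [hasK3_iff hH]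
    refine ⟨two_le_rank hH (hh 2) (by rw [d2]; positivity), fun p hp => ?_⟩
    have hpp := Nat.prime_iff_prime_int.1 hp
    by_cases hp2 : p = 2
    · subst hp2
      refine ⟨e 2, hh 2, fun _ h => ?_, fun h => absurd h (by norm_num), fun h => absurd rfl h⟩
      rw [d2] at h
      have h1 := odd_sq_mod_eight (m := b) (by omega)
      omega
    by_cases hp3 : p = 3
    · subst hp3
      refine ⟨e 1, hh 1, fun h => absurd h (by norm_num), fun _ => ?_, fun _ h => absurd h (by
        norm_num)⟩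
      right
      rw [d1]
      have h1 : a ^ 2 % 3 = 1 := by
        have h2 : a % 3 = 1 ∨ a % 3 = 2 := by omega
        rw [pow_two, Int.mul_emod]
        rcases h2 with h | h <;> rw [h] <;> norm_num
      omega
    have hnot : ∀ c : ℤ, ¬ (p : ℤ) ∣ c → ¬ (p : ℤ) ∣ 6 * c ^ 2 := by
      intro c hc h
      rcases hpp.dvd_or_dvd h with h | h
      · have h1 : p ∣ 2 * 3 := by exact_mod_cast h
        rcases (Nat.Prime.dvd_mul hp).1 h1 with h | h
        · exact hp2 ((Nat.prime_dvd_prime_iff_eq hp Nat.prime_two).1 h)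
        · exact hp3 ((Nat.prime_dvd_prime_iff_eq hp Nat.prime_three).1 h)
      · exact hc (hpp.dvd_of_dvd_pow h)
    by_cases hpa : (p : ℤ) ∣ a
    · have hpb : ¬ (p : ℤ) ∣ b := fun hpb => hpp.not_isUnit (hab.isUnit_of_dvd' hpa hpb)
      exact ⟨e 2, hh 2, fun h => absurd h hp2, fun h => absurd h hp3, fun _ _ => by
        rw [d2]; exact hnot b hpb⟩
    · exact ⟨e 1, hh 1, fun h => absurd h hp2, fun h => absurd h hp3, fun _ _ => by
        rw [d1]; exact hnot a hpa⟩
  · refine no_hilbert hH hL fun c n h => no_value ha hb2 hb3 (c 1) (c 2) n ?_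
    simp [Fin.sum_univ_three] at h
    exact mul_left_cancel₀ (two_ne_zero (α := ℤ)) (by linear_combination h)

/-- the second example -/
theorem example_two (hH : H.IsCohomology) (hL : HodgeLattice H !![3, 0, 1; 0, 26, 13; 1, 13, 35]) :
    H.HasK3 ∧ ¬ HilbertSquare H := by
  constructor
  · obtain ⟨e, h0, hh, hG, -⟩ := hL
    have d1 : H.disc (e 1) = 78 := by
      have g1 := hG 1 1
      have g2 := hG 0 1
      simp at g1 g2
      rw [h0] at g2
      rw [disc, g1, g2]
      ring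
    have d2 : H.disc (e 2) = 104 := by
      have g1 := hG 2 2
      have g2 := hG 0 2
      simp at g1 g2
      rw [h0] at g2
      rw [disc, g1, g2]
      ring
    rw [hasK3_iff hH]
    refine ⟨two_le_rank hH (hh 1) (by rw [d1]; norm_num), fun p hp => ?_⟩
    have hpp := Nat.prime_iff_prime_int.1 hp
    by_cases hp3 : p = 3
    · subst hp3
      refine ⟨e 2, hh 2, fun h => absurd h (by norm_num), fun _ => ?_, fun _ h => absurd h (by
        norm_num)⟩
      left
      rw [d2]
      norm_num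
    refine ⟨e 1, hh 1, fun _ h => ?_, fun h => absurd h hp3, fun h2 h3 h => ?_⟩
    · rw [d1] at h
      norm_num at h
    · rw [d1] at h
      have h1 : p ∣ 2 * 3 * 13 := by exact_mod_cast h
      rcases (Nat.Prime.dvd_mul hp).1 h1 with h | h
      · rcases (Nat.Prime.dvd_mul hp).1 h with h | h
        · exact h2 ((Nat.prime_dvd_prime_iff_eq hp Nat.prime_two).1 h)
        · exact hp3 ((Nat.prime_dvd_prime_iff_eq hp Nat.prime_three).1 h)
      · rw [(Nat.prime_dvd_prime_iff_eq hp (by norm_num)).1 h] at h3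
        norm_num at h3
  · refine no_hilbert hH hL fun c n h => no_value' (c 1) (c 2) n ?_
    simp [Fin.sum_univ_three] at h
    exact mul_left_cancel₀ (two_ne_zero (α := ℤ)) (by linear_combination h)

end Pool.Agent.U758.CF
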