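import Pool.Agent.N801.CF.Adm

/-!
# Hilbert squares of K3 surfaces and associated K3 surfaces of a cubic fourfold: definitions
-/

set_option autoImplicit false

namespace Pool.Agent.U758.CF

open Pool.Agent.Y95.Q

/-- `X` is in the Hassett divisor `C_d`: there is a Hodge class `v` such that `h` and `v` span a
saturated group of discriminant `d`. -/
def InDivisor {X : CubicFourfold} (H : H4 X) (d : ℤ) : Prop :=
  ∃ v, H.IsHodge v ∧ H.Saturated v ∧ H.disc v = d

/-- `X` is in a Hassett divisor `C_d`, where `d = (2 n ^ 2 + 2 n + 2) / a ^ 2` with integers `a` and `n`.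
By a theorem of Addington this means that the variety of lines `F(X)` is birational to the Hilbert
square `S^[2]` of some K3 surface `S`. -/
def HilbertSquare {X : CubicFourfold} (H : H4 X) : Prop :=
  ∃ d, (∃ a n : ℤ, a ^ 2 * d = 2 * n ^ 2 + 2 * n + 2) ∧ InDivisor H d

/-- `X` is in a Hassett divisor `C_d` with an admissible `d`. By theorems of Hassett and of Addington
and Thomas this means that `X` has an associated K3 surface, in the sense of Hassett or of
Kuznetsov. -/
def AssociatedK3 {X : CubicFourfold} (H : H4 X) : Prop := ∃ d, Admissible d ∧ InDivisor H d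

end Pool.Agent.U758.CF
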