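import Pool.Agent.U758.CF.LocalData

/-!
# A local-global principle for the values `n ^ 2 + n + 1`

An integral quadratic form `f` which takes a nonzero square value at `w0`, and is nonzero on two
orthogonal vectors in the orthogonal complement of `w0`, takes a value `n ^ 2 + n + 1` if and only if it
does so locally.
-/

set_option autoImplicit false

namespace Pool.Agent.U758.CF

open Pool.Agent.N801.CF

/-- Dirichlet's theorem -/
theorem dirichlet (r D : ℤ) (hD : D ≠ 0) (B : ℕ) : ∃ (j m : ℤ) (ℓ : ℕ), ℓ.Prime ∧ B < ℓ ∧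
    r + D * j = m * ℓ ∧ m ∣ D ∧ m ∣ r ∧ m ≠ 0 := by
  have hg : (Int.gcd r D : ℤ) ≠ 0 := by
    have : Int.gcd r D ≠ 0 := fun h0 => hD (Int.eq_zero_of_gcd_eq_zero_right h0)
    exact_mod_cast this
  obtain ⟨r', hr'⟩ := Int.gcd_dvd_left r D
  obtain ⟨D', hD'⟩ := Int.gcd_dvd_right r D
  have hcop : IsCoprime r' D' := by
    refine ⟨Int.gcdA r D, Int.gcdB r D, ?_⟩
    apply mul_left_cancel₀ hg
    have hb := Int.gcd_eq_gcd_ab r D
    calc (Int.gcd r D : ℤ) * (Int.gcdA r D * r' + Int.gcdB r D * D')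
        = ((Int.gcd r D : ℤ) * r') * Int.gcdA r D
          + ((Int.gcd r D : ℤ) * D') * Int.gcdB r D := by ring
      _ = r * Int.gcdA r D + D * Int.gcdB r D := by rw [← hr', ← hD']
      _ = (Int.gcd r D : ℤ) * 1 := by rw [← hb, mul_one]
  have hD'0 : D' ≠ 0 := by
    rintro rfl
    exact hD (by rw [hD', mul_zero])
  set q : ℕ := D'.natAbs with hq
  have : NeZero q := ⟨by rw [hq, Int.natAbs_ne_zero]; exact hD'0⟩
  have hqz : ((q : ℕ) : ℤ) ∣ D' ∧ D' ∣ ((q : ℕ) : ℤ) := by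
    rw [hq]
    exact ⟨Int.natAbs_dvd.2 dvd_rfl, Int.dvd_natAbs.2 dvd_rfl⟩
  have hunit : IsUnit ((r' : ℤ) : ZMod q) := by
    have h1 : IsCoprime r' ((q : ℕ) : ℤ) := IsCoprime.of_isCoprime_of_dvd_right hcop hqz.1
    exact (ZMod.coe_int_isUnit_iff_isCoprime r' q).2 h1.symm
  obtain ⟨ℓ, hℓgt, hℓ, hℓs⟩ := Nat.forall_exists_prime_gt_and_eq_mod hunit B
  obtain ⟨j, hj⟩ : D' ∣ (ℓ : ℤ) - r' := by
    refine hqz.2.trans ?_
    rw [← ZMod.intCast_zmod_eq_zero_iff_dvd]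
    push_cast
    rw [hℓs, sub_self]
  refine ⟨j, (Int.gcd r D : ℤ), ℓ, hℓ, hℓgt, ?_, ⟨D', hD'⟩, ⟨r', hr'⟩, hg⟩
  linear_combination hr' + j * hD' - (Int.gcd r D : ℤ) * hj

variable {M : Type*} [AddCommGroup M] (Q : QF M)

/-- **The local-global principle** in the isotropic case. -/
theorem global_rep {w0 w1 w2 : M} {s : ℤ} (hs : s ≠ 0) (h0 : Q.f w0 = s ^ 2)
    (h10 : Q.b w1 w0 = 0) (h20 : Q.b w2 w0 = 0) (h12 : Q.b w1 w2 = 0) (h1 : Q.f w1 ≠ 0)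
    (h2 : Q.f w2 ≠ 0) (hloc : ∀ p : ℕ, p.Prime → p % 3 ≠ 1 → ∃ w, Good p (Q.f w)) :
    ∃ (v : M) (n : ℤ), Q.f v = n ^ 2 + n + 1 := by
  classical
  obtain ⟨F, hF⟩ : ∃ F : M × ℤ → ℤ, ∀ η, F η = Q.f η.1 - (η.2 ^ 2 + η.2 + 1) := ⟨_, fun _ => rfl⟩
  obtain ⟨G, hG⟩ : ∃ G : M × ℤ → ℤ, ∀ η, G η = Q.b η.1 w0 - s * (2 * η.2 + 1) :=
    ⟨_, fun _ => rfl⟩
  have hF_add : ∀ (c : ℤ) (η z : M × ℤ), F (η + c • z) = F η +
      c * (Q.b η.1 z.1 + c * Q.f z.1 - (2 * η.2 * z.2 + c * z.2 ^ 2 + z.2)) := by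
    intro c η z
    rw [hF, hF, Prod.fst_add, Prod.snd_add, Prod.smul_fst, Prod.smul_snd, Q.f_add, Q.f_smul,
      Q.b_smul', smul_eq_mul]
    ring
  have hG_add : ∀ (c : ℤ) (η z : M × ℤ), G (η + c • z) = G η + c * (Q.b z.1 w0 - 2 * s * z.2) := by
    intro c η z
    rw [hG, hG, Prod.fst_add, Prod.snd_add, Prod.smul_fst, Prod.smul_snd, Q.b_add, Q.b_smul,
      smul_eq_mul]
    ring
  set E : ℤ := 6 * s * Q.f w1 * Q.f w2 with hE
  have hE0 : E ≠ 0 := mul_ne_zero (mul_ne_zero (mul_ne_zero (by norm_num) hs) h1) h2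
  have hEn : E.natAbs ≠ 0 := Int.natAbs_ne_zero.2 hE0
  set S : Finset ℕ := E.natAbs.primeFactors with hS
  have hSp : ∀ p ∈ S, p.Prime := fun p hp => Nat.prime_of_mem_primeFactors hp
  have hSd : ∀ p : ℕ, p.Prime → (p : ℤ) ∣ E → p ∈ S := by
    intro p hp hd
    exact Nat.mem_primeFactors.2 ⟨hp, Int.natCast_dvd.1 hd, hEn⟩
  set κ : ℕ := (6 * s).natAbs with hκ
  have hκ0 : κ ≠ 0 := Int.natAbs_ne_zero.2 (mul_ne_zero (by norm_num) hs)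
  have hκp : ∀ p : ℕ, p.Prime → ¬ (p : ℤ) ^ κ ∣ 6 * s := by
    intro p hp hd
    have h3 : p ^ κ ∣ κ := by
      have : ((p ^ κ : ℕ) : ℤ) ∣ 6 * s := by push_cast; exact hd
      exact Int.natCast_dvd.1 this
    exact absurd (Nat.le_of_dvd (Nat.pos_of_ne_zero hκ0) h3)
      (not_le.2 (Nat.lt_pow_self hp.one_lt))
  have hx : ∀ p : ℕ, ∃ η : M × ℤ, p.Prime → (p : ℤ) ^ κ ∣ F η ∧ ¬ (p : ℤ) ^ κ ∣ G η := by
    intro p
    by_cases hp : p.Prime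
    · obtain ⟨w, n, h3, h4⟩ := local_data Q hp (hloc p hp) κ w0 (hκp p hp)
      exact ⟨(w, n), fun _ => ⟨by rw [hF]; exact h3, by rw [hG]; exact h4⟩⟩
    · exact ⟨0, fun h => absurd h hp⟩
  choose x hx using hx
  obtain ⟨y, hy⟩ := crt S hSp κ x
  have hyF : ∀ p ∈ S, (p : ℤ) ^ κ ∣ F y := by
    intro p hp
    obtain ⟨z, hz⟩ := hy p hp
    rw [hz, hF_add]
    exact dvd_add (hx p (hSp p hp)).1 (dvd_mul_right _ _)
  have hyG : ∀ p ∈ S, ¬ (p : ℤ) ^ κ ∣ G y := by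
    intro p hp hd
    obtain ⟨z, hz⟩ := hy p hp
    rw [hz, hG_add] at hd
    exact (hx p (hSp p hp)).2 ((Int.dvd_add_left (dvd_mul_right _ _)).1 hd)
  set K : ℤ := ∏ p ∈ S, (p : ℤ) ^ κ with hK
  have hK0 : K ≠ 0 := Finset.prod_ne_zero_iff.2 fun p hp => pow_ne_zero _ (by
    exact_mod_cast (hSp p hp).ne_zero)
  have hKp : ∀ p : ℕ, p.Prime → (p : ℤ) ∣ K → p ∈ S := by
    intro p hp hd
    have hpp := Nat.prime_iff_prime_int.1 hp
    obtain ⟨q, hq, hdq⟩ := (Prime.dvd_finset_prod_iff hpp _).1 hd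
    have h3 : p ∣ q := by exact_mod_cast hpp.dvd_of_dvd_pow hdq
    rw [(Nat.prime_dvd_prime_iff_eq hp (hSp q hq)).1 h3]
    exact hq
  have hKF : K ∣ F y := by
    refine Finset.prod_dvd_of_coprime ?_ hyF
    intro p hp q hq hpq
    refine IsCoprime.pow ?_
    rw [Nat.isCoprime_iff_coprime]
    exact (Nat.coprime_primes (hSp p hp) (hSp q hq)).2 hpq
  -- Dirichlet
  obtain ⟨j, m, ℓ, hℓ, hℓB, hval, hmD, hmr, hm0⟩ := dirichlet (G y) (-(2 * s * K))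
    (neg_ne_zero.2 (mul_ne_zero (mul_ne_zero two_ne_zero hs) hK0)) E.natAbs
  have hℓp := Nat.prime_iff_prime_int.1 hℓ
  have hℓE : ¬ (ℓ : ℤ) ∣ E := by
    intro h
    exact absurd (Nat.le_of_dvd (Nat.pos_of_ne_zero hEn) (Int.natCast_dvd.1 h)) (not_le.2 hℓB)
  have hℓS : ℓ ∉ S := fun h => hℓE (Int.natCast_dvd.2 (Nat.dvd_of_mem_primeFactors h))
  have hℓK : ¬ (ℓ : ℤ) ∣ K := fun h => hℓS (hKp ℓ hℓ h)
  have hmK : m ∣ K := by
    rw [← Int.natAbs_dvd_natAbs, Nat.dvd_iff_prime_pow_dvd_dvd]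
    intro p e hp hpe
    rcases Nat.eq_zero_or_pos e with rfl | he
    · simp
    have hpe' : ((p ^ e : ℕ) : ℤ) ∣ m := Int.natCast_dvd.2 hpe
    have hpm : (p : ℤ) ∣ m := (by exact_mod_cast dvd_pow_self p he.ne' : (p : ℤ) ∣ ((p ^ e : ℕ) : ℤ)).trans hpe'
    have hpp := Nat.prime_iff_prime_int.1 hp
    have hpS : p ∈ S := by
      have h3 := hpm.trans hmD
      rw [dvd_neg] at h3
      rcases hpp.dvd_or_dvd h3 with h | h
      · refine hSd p hp (h.trans ?_)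
        exact ⟨3 * (Q.f w1 * Q.f w2), by rw [hE]; ring⟩
      · exact hKp p hp h
    have hlt : e < κ := by
      by_contra hc
      push Not at hc
      refine hyG p hpS ?_
      have h3 : (p : ℤ) ^ κ ∣ (p : ℤ) ^ e := pow_dvd_pow _ hc
      refine h3.trans ?_
      have : ((p ^ e : ℕ) : ℤ) ∣ G y := hpe'.trans hmr
      push_cast at this
      exact this
    have h4 : (p : ℤ) ^ e ∣ K := (pow_dvd_pow _ hlt.le).trans (Finset.dvd_prod_of_mem _ hpS)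
    have h5 : ((p ^ e : ℕ) : ℤ) ∣ K := by push_cast; exact h4
    exact Int.natCast_dvd.1 h5
  set η1 : M × ℤ := y + K • ((0 : M), j) with hη1
  have hG1 : G η1 = m * ℓ := by
    rw [hη1, hG_add, ← hval, Q.b_zero]
    ring
  have hF1 : K ∣ F η1 := by
    rw [hη1, hF_add]
    exact dvd_add hKF (dvd_mul_right _ _)
  -- the prime `ℓ`
  have : Fact ℓ.Prime := ⟨hℓ⟩
  have hℓ2 : ℓ ≠ 2 := by
    rintro rfl
    exact hℓE ⟨3 * s * Q.f w1 * Q.f w2, by rw [hE]; push_cast; ring⟩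
  have hodd : Fintype.card (ZMod ℓ) % 2 = 1 := by
    rw [ZMod.card]
    rcases hℓ.eq_two_or_odd with h | h
    · exact absurd h hℓ2
    · exact h
  have hKz : ((K : ℤ) : ZMod ℓ) ≠ 0 := fun h => hℓK ((ZMod.intCast_zmod_eq_zero_iff_dvd _ ℓ).1 h)
  have h1z : ((Q.f w1 : ℤ) : ZMod ℓ) ≠ 0 := fun h =>
    hℓE (((ZMod.intCast_zmod_eq_zero_iff_dvd _ ℓ).1 h).trans ⟨6 * s * Q.f w2, by rw [hE]; ring⟩)
  have h2z : ((Q.f w2 : ℤ) : ZMod ℓ) ≠ 0 := fun h =>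
    hℓE (((ZMod.intCast_zmod_eq_zero_iff_dvd _ ℓ).1 h).trans ⟨6 * s * Q.f w1, by rw [hE]; ring⟩)
  obtain ⟨a, b, hab⟩ := FiniteField.exists_root_sum_quadratic
    (f := Polynomial.C ((K : ZMod ℓ) ^ 2 * (Q.f w1 : ℤ)) * Polynomial.X ^ 2 +
      Polynomial.C ((K : ZMod ℓ) * (Q.b η1.1 w1 : ℤ)) * Polynomial.X +
      Polynomial.C ((F η1 : ℤ) : ZMod ℓ))
    (g := Polynomial.C ((K : ZMod ℓ) ^ 2 * (Q.f w2 : ℤ)) * Polynomial.X ^ 2 +
      Polynomial.C ((K : ZMod ℓ) * (Q.b η1.1 w2 : ℤ)) * Polynomial.X + Polynomial.C (0 : ZMod ℓ))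
    (Polynomial.degree_quadratic (mul_ne_zero (pow_ne_zero _ hKz) h1z))
    (Polynomial.degree_quadratic (mul_ne_zero (pow_ne_zero _ hKz) h2z)) hodd
  simp only [Polynomial.eval_mul, Polynomial.eval_C, Polynomial.eval_pow, Polynomial.eval_X,
    Polynomial.eval_add] at hab
  obtain ⟨A, hA⟩ := ZMod.intCast_surjective a
  obtain ⟨B, hB⟩ := ZMod.intCast_surjective b
  set η2 : M × ℤ := η1 + K • (A • w1 + B • w2, (0 : ℤ)) with hη2
  have hG2 : G η2 = m * ℓ := by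
    rw [hη2, hG_add, hG1]
    simp only [Q.b_add, Q.b_smul, h10, h20]
    ring
  have hF2e : F η2 = F η1 + K * (A * Q.b η1.1 w1 + B * Q.b η1.1 w2) +
      K ^ 2 * (A ^ 2 * Q.f w1 + B ^ 2 * Q.f w2) := by
    rw [hη2, hF_add]
    simp only [Q.b_add', Q.b_smul', Q.f_add, Q.f_smul, Q.b_smul, h12]
    ring
  have hF2 : K ∣ F η2 := by
    rw [hF2e, add_assoc]
    exact dvd_add hF1 (dvd_add (dvd_mul_right _ _) (dvd_mul_of_dvd_left (dvd_pow_self _ two_ne_zero) _))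
  have hF2ℓ : (ℓ : ℤ) ∣ F η2 := by
    rw [← ZMod.intCast_zmod_eq_zero_iff_dvd, hF2e]
    push_cast
    rw [hA, hB]
    linear_combination hab
  have hcop : IsCoprime m (ℓ : ℤ) :=
    ((Prime.coprime_iff_not_dvd hℓp).2 fun h => hℓK (h.trans hmK)).symm
  have hfin : m * ℓ ∣ F η2 := hcop.mul_dvd (hmK.trans hF2) hF2ℓ
  refine trick Q h0 η2.1 (2 * η2.2 + 1) (m * ℓ) ?_ ?_
  · rw [← hG2, hG]
  · obtain ⟨c, hc⟩ := hfin
    refine ⟨c, ?_⟩
    rw [hF] at hc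
    linear_combination 4 * hc

end Pool.Agent.U758.CF
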