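import Pool.Agent.U758.CF.Global
import Pool.Agent.U758.CF.Defs
import Pool.Agent.N801.CF.Main1

/-!
# Hilbert squares of K3 surfaces: the local conditions
-/

set_option autoImplicit false

namespace Pool.Agent.U758.CF

open Pool.Agent.Y95.Q Pool.Agent.Y95.Q.H4 Pool.Agent.N801.CF Pool.Agent.X328.CF Module

variable {X : CubicFourfold} {H : H4 X}

theorem associatedK3_iff : AssociatedK3 H ↔ H.HasK3 := by
  constructor
  · rintro ⟨d, hd, v, hv, hs, rfl⟩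
    exact ⟨v, hv, hs, hd⟩
  · rintro ⟨v, hv, hs, hd⟩
    exact ⟨_, hd, v, hv, hs, rfl⟩

theorem two_pos_val (n : ℤ) : 0 < n ^ 2 + n + 1 := by nlinarith [sq_nonneg (2 * n + 1)]

/-- the condition of Addington in terms of the form -/
theorem hilbert_iff (hH : H.IsCohomology) : HilbertSquare H ↔
    ∃ (v : Fin 23 → ℤ) (n : ℤ), H.IsHodge v ∧ H.disc v = 2 * (n ^ 2 + n + 1) := by
  constructor
  · rintro ⟨d, ⟨a, n, h⟩, v, hv, -, rfl⟩
    refine ⟨a • v, n, H.isHodge_smul _ hv, ?_⟩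
    rw [disc_smul, h]
    ring
  · rintro ⟨v, n, hv, hd⟩
    have h0 : 0 < H.disc v := by rw [hd]; have := two_pos_val n; omega
    obtain ⟨w, m, hm, hw, hs, hdw⟩ := exists_sat hH hv h0
    refine ⟨H.disc w, ⟨m, n, ?_⟩, w, hw, hs, rfl⟩
    rw [← hdw, hd]
    ring

theorem hilbert_of_form (hH : H.IsCohomology)
    (h : ∃ (v : H.hodge) (n : ℤ), (hq hH).f v = n ^ 2 + n + 1) : HilbertSquare H := by
  rw [hilbert_iff hH]
  obtain ⟨v, n, hv⟩ := h
  refine ⟨v, n, v.2, ?_⟩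
  rw [← hv, hq_f]
  exact disc_half hH _

/-- the numbers `2 (n ^ 2 + n + 1)` are admissible at every prime -/
theorem admAt_val (n : ℤ) {p : ℕ} (hp : p.Prime) : AdmissibleAt p (2 * (n ^ 2 + n + 1)) := by
  refine ⟨fun _ => ?_, fun _ => ?_, fun h2 h3 h => ?_⟩
  · have : (n ^ 2 + n) % 2 = 0 := by
      have h1 : n ^ 2 + n = n * (n + 1) := by ring
      rw [h1]
      rcases Int.emod_two_eq_zero_or_one n with h | h
      · rw [Int.mul_emod, h]; norm_num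
      · rw [Int.mul_emod, show (n + 1) % 2 = 0 by omega]; norm_num
    omega
  · have h3 : n % 3 = 0 ∨ n % 3 = 1 ∨ n % 3 = 2 := by omega
    rcases h3 with h | h | h
    · left
      obtain ⟨k, hk⟩ : ∃ k, n = 3 * k := ⟨n / 3, by omega⟩
      rw [hk, show 2 * ((3 * k) ^ 2 + 3 * k + 1) = 3 * (6 * k ^ 2 + 2 * k) + 2 by ring]
      omega
    · right
      obtain ⟨k, hk⟩ : ∃ k, n = 3 * k + 1 := ⟨n / 3, by omega⟩
      rw [hk, show 2 * ((3 * k + 1) ^ 2 + (3 * k + 1) + 1) = 18 * (k ^ 2 + k) + 6 by ring]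
      omega
    · left
      obtain ⟨k, hk⟩ : ∃ k, n = 3 * k + 2 := ⟨n / 3, by omega⟩
      rw [hk, show 2 * ((3 * k + 2) ^ 2 + (3 * k + 2) + 1) = 3 * (6 * k ^ 2 + 10 * k + 4) + 2 by
        ring]
      omega
  · have hpp := Nat.prime_iff_prime_int.1 hp
    rcases hpp.dvd_or_dvd h with h | h
    · have : p ∣ 2 := by exact_mod_cast h
      exact h2 ((Nat.prime_dvd_prime_iff_eq hp Nat.prime_two).1 this)
    · have h4 : (p : ℤ) ∣ nm n 1 := by
        unfold nm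
        rw [show n ^ 2 + n * 1 + 1 ^ 2 = n ^ 2 + n + 1 by ring]
        exact h
      have h5 := (inert hp h3 h4).2
      have : p ∣ 1 := by exact_mod_cast h5
      exact hp.one_lt.ne' (Nat.dvd_one.1 this)

/-- a Hilbert square gives the local conditions -/
theorem local_of_hilbert (hH : H.IsCohomology) (h : HilbertSquare H) :
    2 ≤ H.rank ∧ ∀ p : ℕ, p.Prime → ∃ v, H.IsHodge v ∧ AdmissibleAt p (H.disc v) := by
  rw [hilbert_iff hH] at h
  obtain ⟨v, n, hv, hd⟩ := h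
  have h0 : 0 < H.disc v := by rw [hd]; have := two_pos_val n; omega
  exact ⟨two_le_rank hH hv h0, fun p hp => ⟨v, hv, by rw [hd]; exact admAt_val n hp⟩⟩

theorem hasK3_of_hilbert (hH : H.IsCohomology) (h : HilbertSquare H) : H.HasK3 :=
  (hasK3_iff hH).2 (local_of_hilbert hH h)

/-- the isotropic case of rank four -/
theorem hilbert_of_square (hH : H.IsCohomology) (hr : 4 ≤ H.rank) {w0 : Fin 23 → ℤ}
    (hw0 : H.IsHodge w0) {s : ℤ} (hs : s ≠ 0) (hd : H.disc w0 = 2 * s ^ 2)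
    (hloc : ∀ p : ℕ, p.Prime → p % 3 ≠ 1 → ∃ v, H.IsHodge v ∧ AdmissibleAt p (H.disc v)) :
    HilbertSquare H := by
  rw [H.rank_eq] at hr
  obtain ⟨w1, h1, ho1⟩ := exists_orth (H := H) (k := 2) (by omega) ![H.h, w0]
  obtain ⟨w2, h2, ho2⟩ := exists_orth (H := H) (k := 3) (by omega) ![H.h, w0, w1]
  have a1 : H.ip (w1 : Fin 23 → ℤ) H.h = 0 := ho1 0
  have a2 : H.ip (w1 : Fin 23 → ℤ) w0 = 0 := ho1 1
  have b1 : H.ip (w2 : Fin 23 → ℤ) H.h = 0 := ho2 0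
  have b2 : H.ip (w2 : Fin 23 → ℤ) w0 = 0 := ho2 1
  have b3 : H.ip (w2 : Fin 23 → ℤ) w1 = 0 := ho2 2
  have pos : ∀ w : H.hodge, w ≠ 0 → H.ip (w : Fin 23 → ℤ) H.h = 0 → (hq hH).f w ≠ 0 := by
    intro w hw hwh
    have h3 := disc_prim hH hwh
    have h4 : 0 < H.ip (w : Fin 23 → ℤ) w := hH.pos _ w.2 fun h => hw (Subtype.ext h)
    have h5 := disc_half hH (w : Fin 23 → ℤ)
    rw [hq_f]
    omega
  refine hilbert_of_form hH (global_rep (hq hH) (w0 := ⟨w0, hw0⟩) (w1 := w1) (w2 := w2) hs ?_ ?_ ?_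
    ?_ (pos w1 h1 a1) (pos w2 h2 b1) ?_)
  · rw [hq_f]
    show H.disc w0 / 2 = s ^ 2
    rw [hd]
    omega
  · show 3 * H.ip (w1 : Fin 23 → ℤ) w0 - H.ip H.h w1 * H.ip H.h w0 = 0
    rw [a2, hH.comm H.h, a1]
    ring
  · show 3 * H.ip (w2 : Fin 23 → ℤ) w0 - H.ip H.h w2 * H.ip H.h w0 = 0
    rw [b2, hH.comm H.h, b1]
    ring
  · show 3 * H.ip (w1 : Fin 23 → ℤ) w2 - H.ip H.h w1 * H.ip H.h w2 = 0
    rw [hH.comm (w1 : Fin 23 → ℤ), b3, hH.comm H.h, a1]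
    ring
  · intro p hp h3
    obtain ⟨v, hv, hadm⟩ := hloc p hp h3
    exact ⟨⟨v, hv⟩, good_of_adm hH hp h3 hadm⟩

/-- in rank five there is a class whose discriminant is twice a square -/
theorem exists_square (hH : H.IsCohomology) (hr : 5 ≤ H.rank) :
    ∃ (w : Fin 23 → ℤ) (s : ℤ), H.IsHodge w ∧ s ≠ 0 ∧ H.disc w = 2 * s ^ 2 := by
  rw [H.rank_eq] at hr
  obtain ⟨v1, h1, o1⟩ := exists_orth (H := H) (k := 1) (by omega) ![H.h]
  obtain ⟨v2, h2, o2⟩ := exists_orth (H := H) (k := 2) (by omega) ![H.h, v1]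
  obtain ⟨v3, h3, o3⟩ := exists_orth (H := H) (k := 3) (by omega) ![H.h, v1, v2]
  obtain ⟨v4, h4, o4⟩ := exists_orth (H := H) (k := 4) (by omega) ![H.h, v1, v2, v3]
  have c10 : H.ip (v1 : Fin 23 → ℤ) H.h = 0 := o1 0
  have c20 : H.ip (v2 : Fin 23 → ℤ) H.h = 0 := o2 0
  have c21 : H.ip (v2 : Fin 23 → ℤ) v1 = 0 := o2 1
  have c30 : H.ip (v3 : Fin 23 → ℤ) H.h = 0 := o3 0
  have c31 : H.ip (v3 : Fin 23 → ℤ) v1 = 0 := o3 1
  have c32 : H.ip (v3 : Fin 23 → ℤ) v2 = 0 := o3 2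
  have c40 : H.ip (v4 : Fin 23 → ℤ) H.h = 0 := o4 0
  have c41 : H.ip (v4 : Fin 23 → ℤ) v1 = 0 := o4 1
  have c42 : H.ip (v4 : Fin 23 → ℤ) v2 = 0 := o4 2
  have c43 : H.ip (v4 : Fin 23 → ℤ) v3 = 0 := o4 3
  have half : ∀ w : H.hodge, w ≠ 0 → H.ip (w : Fin 23 → ℤ) H.h = 0 →
      ∃ a : ℤ, 0 < a ∧ H.ip (w : Fin 23 → ℤ) w = 2 * a := by
    intro w hw hwh
    have h5 : 0 < H.ip (w : Fin 23 → ℤ) w := hH.pos _ w.2 fun h => hw (Subtype.ext h)
    obtain ⟨c, hc⟩ := hH.char (w : Fin 23 → ℤ)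
    exact ⟨c, by omega, by omega⟩
  obtain ⟨a1, p1, e1⟩ := half v1 h1 c10
  obtain ⟨a2, p2, e2⟩ := half v2 h2 c20
  obtain ⟨a3, p3, e3⟩ := half v3 h3 c30
  obtain ⟨a4, p4, e4⟩ := half v4 h4 c40
  obtain ⟨x, hx, he⟩ := Pool.Agent.R847.QB.meyer Pool.Agent.R847.QB.iso_ Pool.Agent.R847.QB.dir_
    ![3 * a1, 3 * a2, 3 * a3, 3 * a4, -1] (by
    intro i
    fin_cases i <;> simp <;> omega) ⟨0, by simpa using p1⟩ ⟨4, by simp⟩
  obtain ⟨N, hN, z, hz⟩ := common x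
  have hN' : (N : ℚ) ≠ 0 := by exact_mod_cast hN.ne'
  simp only [Fin.sum_univ_five] at he
  simp at he
  have hez : 3 * a1 * z 0 ^ 2 + 3 * a2 * z 1 ^ 2 + 3 * a3 * z 2 ^ 2 + 3 * a4 * z 3 ^ 2 = z 4 ^ 2 := by
    have : (3 * a1 * z 0 ^ 2 + 3 * a2 * z 1 ^ 2 + 3 * a3 * z 2 ^ 2 + 3 * a4 * z 3 ^ 2 : ℚ) =
        z 4 ^ 2 := by
      rw [← hz, ← hz, ← hz, ← hz, ← hz]
      linear_combination (N : ℚ) ^ 2 * he
    exact_mod_cast this
  refine ⟨z 0 • (v1 : Fin 23 → ℤ) + z 1 • (v2 : Fin 23 → ℤ) + z 2 • (v3 : Fin 23 → ℤ) +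
    z 3 • (v4 : Fin 23 → ℤ), z 4, ?_, ?_, ?_⟩
  · exact H.isHodge_add (H.isHodge_add (H.isHodge_add (H.isHodge_smul _ v1.2)
      (H.isHodge_smul _ v2.2)) (H.isHodge_smul _ v3.2)) (H.isHodge_smul _ v4.2)
  · intro h0
    rw [h0] at hez
    apply hx
    have q1 : 0 ≤ 3 * a1 * z 0 ^ 2 := by positivity
    have q2 : 0 ≤ 3 * a2 * z 1 ^ 2 := by positivity
    have q3 : 0 ≤ 3 * a3 * z 2 ^ 2 := by positivity
    have q4 : 0 ≤ 3 * a4 * z 3 ^ 2 := by positivity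
    have z0 : z 0 = 0 := by
      have : 3 * a1 * z 0 ^ 2 = 0 := by nlinarith
      exact pow_eq_zero_iff (two_ne_zero) |>.1 ((mul_eq_zero.1 this).resolve_left (by omega))
    have z1 : z 1 = 0 := by
      have : 3 * a2 * z 1 ^ 2 = 0 := by nlinarith
      exact pow_eq_zero_iff (two_ne_zero) |>.1 ((mul_eq_zero.1 this).resolve_left (by omega))
    have z2 : z 2 = 0 := by
      have : 3 * a3 * z 2 ^ 2 = 0 := by nlinarith
      exact pow_eq_zero_iff (two_ne_zero) |>.1 ((mul_eq_zero.1 this).resolve_left (by omega))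
    have z3 : z 3 = 0 := by
      have : 3 * a4 * z 3 ^ 2 = 0 := by nlinarith
      exact pow_eq_zero_iff (two_ne_zero) |>.1 ((mul_eq_zero.1 this).resolve_left (by omega))
    have back : ∀ i, z i = 0 → x i = 0 := by
      intro i hi
      have := hz i
      rw [hi, Int.cast_zero] at this
      exact (mul_eq_zero.1 this).resolve_left hN'
    funext i
    fin_cases i
    · exact back 0 z0
    · exact back 1 z1
    · exact back 2 z2
    · exact back 3 z3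
    · exact back 4 h0
  · have k12 : H.ip (v1 : Fin 23 → ℤ) v2 = 0 := by rw [hH.comm]; exact c21
    have k13 : H.ip (v1 : Fin 23 → ℤ) v3 = 0 := by rw [hH.comm]; exact c31
    have k14 : H.ip (v1 : Fin 23 → ℤ) v4 = 0 := by rw [hH.comm]; exact c41
    have k23 : H.ip (v2 : Fin 23 → ℤ) v3 = 0 := by rw [hH.comm]; exact c32
    have k24 : H.ip (v2 : Fin 23 → ℤ) v4 = 0 := by rw [hH.comm]; exact c42
    have k34 : H.ip (v3 : Fin 23 → ℤ) v4 = 0 := by rw [hH.comm]; exact c43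
    have g1 : H.ip H.h (v1 : Fin 23 → ℤ) = 0 := by rw [hH.comm]; exact c10
    have g2 : H.ip H.h (v2 : Fin 23 → ℤ) = 0 := by rw [hH.comm]; exact c20
    have g3 : H.ip H.h (v3 : Fin 23 → ℤ) = 0 := by rw [hH.comm]; exact c30
    have g4 : H.ip H.h (v4 : Fin 23 → ℤ) = 0 := by rw [hH.comm]; exact c40
    simp only [disc, ip_add_left, ip_add_right, ip_smul_left, ip_smul_right, c21, c31, c32, c41,
      c42, c43, k12, k13, k14, k23, k24, k34, g1, g2, g3, g4, e1, e2, e3, e4]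
    linear_combination 2 * hez

/-- **The local-global principle for Hilbert squares** in rank five. -/
theorem hilbert_of_rank (hH : H.IsCohomology) (hr : 5 ≤ H.rank)
    (hloc : ∀ p : ℕ, p.Prime → p % 3 ≠ 1 → ∃ v, H.IsHodge v ∧ AdmissibleAt p (H.disc v)) :
    HilbertSquare H := by
  obtain ⟨w, s, hw, hs, hd⟩ := exists_square hH hr
  exact hilbert_of_square hH (by omega) hw hs hd hloc

end Pool.Agent.U758.CF
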