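import Pool.Agent.U758.CF.Trick

/-!
# Local solutions of `f w = n ^ 2 + n + 1`
-/

set_option autoImplicit false

namespace Pool.Agent.U758.CF

open Pool.Agent.N801.CF

/-- Hensel's lemma for quadratic polynomials -/
theorem hensel {p : ℕ} (hp : p.Prime) (α β γ x0 : ℤ) (h : (p : ℤ) ∣ α * x0 ^ 2 + β * x0 + γ)
    (hs : ¬ (p : ℤ) ∣ 2 * α * x0 + β) (L : ℕ) :
    ∃ x : ℤ, (p : ℤ) ^ L ∣ α * x ^ 2 + β * x + γ ∧ (p : ℤ) ∣ x - x0 := by
  have hpp := Nat.prime_iff_prime_int.1 hp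
  induction L with
  | zero => exact ⟨x0, by simp, by simp⟩
  | succ L ih =>
    rcases Nat.eq_zero_or_pos L with rfl | hL
    · exact ⟨x0, by simpa using h, by simp⟩
    obtain ⟨x, ⟨c, hc⟩, hx⟩ := ih
    have hcop : IsCoprime (2 * α * x + β) (p : ℤ) := by
      refine ((Prime.coprime_iff_not_dvd hpp).2 fun hd => hs ?_).symm
      obtain ⟨y, hy⟩ := hx
      obtain ⟨z, hz⟩ := hd
      exact ⟨z - 2 * α * y, by linear_combination hz - 2 * α * hy⟩
    obtain ⟨a, b, hab⟩ := hcop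
    obtain ⟨y, hy⟩ := hx
    refine ⟨x + (p : ℤ) ^ L * (-(c * a)), ?_, ?_⟩
    · have h2 : (p : ℤ) ^ (L + 1) ∣ (p : ℤ) ^ L * (p : ℤ) ^ L := by
        rw [← pow_add]
        exact pow_dvd_pow _ (by omega)
      obtain ⟨z, hz⟩ := h2
      refine ⟨c * b + α * (c * a) ^ 2 * z, ?_⟩
      have e : α * (x + (p : ℤ) ^ L * (-(c * a))) ^ 2 + β * (x + (p : ℤ) ^ L * (-(c * a))) + γ =
          (α * x ^ 2 + β * x + γ) - (p : ℤ) ^ L * (c * a) * (2 * α * x + β) +
          α * (c * a) ^ 2 * ((p : ℤ) ^ L * (p : ℤ) ^ L) := by ring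
      rw [e, hc, hz]
      have : (2 * α * x + β) * a = 1 - b * p := by linear_combination hab
      have e2 : (p : ℤ) ^ L * (c * a) * (2 * α * x + β) =
          (p : ℤ) ^ L * c * (1 - b * p) := by rw [← this]; ring
      rw [e2, pow_succ]
      ring
    · obtain ⟨q, hq⟩ := dvd_pow_self (p : ℤ) (by omega : L ≠ 0)
      exact ⟨y + q * (-(c * a)), by rw [hq]; linear_combination hy⟩

/-- cube roots of unity modulo a prime -/
theorem cube_root {p : ℕ} (hp : p.Prime) (h : p % 3 = 1) :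
    ∃ n : ℤ, (p : ℤ) ∣ 1 * n ^ 2 + 1 * n + 1 ∧ ¬ (p : ℤ) ∣ 2 * 1 * n + 1 := by
  have : Fact p.Prime := ⟨hp⟩
  have hcard : 3 ∣ Fintype.card (ZMod p)ˣ := by
    rw [ZMod.card_units_eq_totient, Nat.totient_prime hp]
    omega
  obtain ⟨u, hu⟩ := exists_prime_orderOf_dvd_card 3 hcard
  have hu3 : (u : ZMod p) ^ 3 = 1 := by
    have := pow_orderOf_eq_one u
    rw [hu] at this
    rw [← Units.val_pow_eq_pow_val, this, Units.val_one]
  have hu1 : (u : ZMod p) ≠ 1 := by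
    intro h1
    have : u = 1 := Units.ext h1
    rw [this, orderOf_one] at hu
    omega
  have key : (u : ZMod p) ^ 2 + (u : ZMod p) + 1 = 0 := by
    have h1 : ((u : ZMod p) - 1) * ((u : ZMod p) ^ 2 + (u : ZMod p) + 1) = 0 := by
      linear_combination hu3
    rcases mul_eq_zero.1 h1 with h | h
    · exact absurd (sub_eq_zero.1 h) hu1
    · exact h
  obtain ⟨n, hn⟩ := ZMod.intCast_surjective (u : ZMod p)
  refine ⟨n, ?_, ?_⟩
  · rw [← ZMod.intCast_zmod_eq_zero_iff_dvd]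
    push_cast
    rw [hn]
    linear_combination key
  · intro hd
    rw [← ZMod.intCast_zmod_eq_zero_iff_dvd] at hd
    push_cast at hd
    rw [hn] at hd
    have h3 : ((3 : ℤ) : ZMod p) = 0 := by
      push_cast
      linear_combination 4 * key - (2 * (u : ZMod p) + 1) * hd
    rw [ZMod.intCast_zmod_eq_zero_iff_dvd] at h3
    have h4 : p ∣ 3 := by exact_mod_cast h3
    rw [(Nat.prime_dvd_prime_iff_eq hp Nat.prime_three).1 h4] at h
    omega

variable {M : Type*} [AddCommGroup M] (Q : QF M)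

/-- local solutions -/
theorem local_sol {p : ℕ} (hp : p.Prime) (hloc : p % 3 ≠ 1 → ∃ w, Good p (Q.f w)) (N : ℕ) :
    ∃ (w : M) (n c : ℤ), (p : ℤ) ^ N ∣ Q.f w - (n ^ 2 + n + 1) ∧ ¬ (p : ℤ) ∣ c ∧
      2 * n + 1 ∣ 3 * c := by
  have hpp := Nat.prime_iff_prime_int.1 hp
  have hp2 := hp.two_le
  -- units
  have unit : ∀ (w : M) (n0 : ℤ), (p : ℤ) ∣ 1 * n0 ^ 2 + 1 * n0 + (1 - Q.f w) →
      ¬ (p : ℤ) ∣ 2 * 1 * n0 + 1 → ∃ (w : M) (n c : ℤ), (p : ℤ) ^ N ∣ Q.f w - (n ^ 2 + n + 1) ∧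
        ¬ (p : ℤ) ∣ c ∧ 2 * n + 1 ∣ 3 * c := by
    intro w n0 h1 h2
    obtain ⟨n, hn, ⟨y, hy⟩⟩ := hensel hp _ _ _ _ h1 h2 N
    refine ⟨w, n, 2 * n + 1, ?_, ?_, Dvd.intro_left 3 rfl⟩
    · rw [← dvd_neg, show -(Q.f w - (n ^ 2 + n + 1)) = 1 * n ^ 2 + 1 * n + (1 - Q.f w) by ring]
      exact hn
    · rintro ⟨z, hz⟩
      exact h2 ⟨z - 2 * y, by linear_combination hz - 2 * hy⟩
  by_cases h3 : p % 3 = 1
  · obtain ⟨n, h1, h2⟩ := cube_root hp h3
    have hf : Q.f 0 = 0 := by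
      have := Q.f_smul 0 0
      simpa using this
    exact unit 0 n (by rw [hf, sub_zero]; exact h1) h2
  obtain ⟨w, hw⟩ := hloc h3
  by_cases hp3 : p = 3
  · subst hp3
    rcases hw.1 rfl with h | h
    · refine unit w 0 ?_ ?_
      · rw [show 1 * (0 : ℤ) ^ 2 + 1 * 0 + (1 - Q.f w) = 1 - Q.f w by ring]
        push_cast
        omega
      · norm_num
    · obtain ⟨u, hu⟩ : ∃ u, Q.f w = 3 * u := ⟨Q.f w / 3, by omega⟩
      obtain ⟨x, hx, -⟩ := hensel hp u 0 (-1) 1 (by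
        rw [show u * (1 : ℤ) ^ 2 + 0 * 1 + -1 = u - 1 by ring]
        push_cast
        omega) (by push_cast; omega) N
      refine ⟨x • w, 1, 1, ?_, by norm_num, by norm_num⟩
      rw [Q.f_smul, hu]
      obtain ⟨z, hz⟩ := hx
      exact ⟨3 * z, by linear_combination 3 * hz⟩
  have hnd := hw.2 hp3
  by_cases h2 : p = 2
  · subst h2
    refine unit w 0 ?_ ?_
    · rw [show 1 * (0 : ℤ) ^ 2 + 1 * 0 + (1 - Q.f w) = 1 - Q.f w by ring]
      push_cast at hnd ⊢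
      omega
    · norm_num
  have : Fact p.Prime := ⟨hp⟩
  have hodd : Fintype.card (ZMod p) % 2 = 1 := by
    rw [ZMod.card]
    rcases hp.eq_two_or_odd with h | h
    · exact absurd h h2
    · exact h
  have hc0 : ((Q.f w : ℤ) : ZMod p) ≠ 0 := fun h => hnd ((ZMod.intCast_zmod_eq_zero_iff_dvd _ p).1 h)
  obtain ⟨x, y, hxy⟩ := FiniteField.exists_root_sum_quadratic
    (f := Polynomial.C ((Q.f w : ℤ) : ZMod p) * Polynomial.X ^ 2)
    (g := -(Polynomial.C 1 * Polynomial.X ^ 2 + Polynomial.C 1 * Polynomial.X +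
      Polynomial.C (1 : ZMod p)))
    (by rw [Polynomial.degree_C_mul_X_pow 2 hc0]; rfl)
    (by rw [Polynomial.degree_neg, Polynomial.degree_quadratic one_ne_zero]) hodd
  simp only [Polynomial.eval_mul, Polynomial.eval_C, Polynomial.eval_pow, Polynomial.eval_X,
    Polynomial.eval_neg, Polynomial.eval_add] at hxy
  have h30 : (3 : ZMod p) ≠ 0 := by
    intro h
    have h5 : ((3 : ℤ) : ZMod p) = 0 := by exact_mod_cast h
    rw [ZMod.intCast_zmod_eq_zero_iff_dvd] at h5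
    have h4 : p ∣ 3 := by exact_mod_cast h5
    exact hp3 ((Nat.prime_dvd_prime_iff_eq hp Nat.prime_three).1 h4)
  obtain ⟨X, hX⟩ := ZMod.intCast_surjective x
  obtain ⟨Y, hY⟩ := ZMod.intCast_surjective y
  by_cases h2y : 2 * y + 1 = 0
  · refine unit ((2 * X) • w) 1 ?_ ?_
    · rw [← ZMod.intCast_zmod_eq_zero_iff_dvd, Q.f_smul]
      push_cast
      rw [hX]
      linear_combination -4 * hxy - (2 * y + 1) * h2y
    · rw [← ZMod.intCast_zmod_eq_zero_iff_dvd]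
      push_cast
      intro h
      exact h30 (by linear_combination h)
  · refine unit (X • w) Y ?_ ?_
    · rw [← ZMod.intCast_zmod_eq_zero_iff_dvd, Q.f_smul]
      push_cast
      rw [hX, hY]
      linear_combination -hxy
    · rw [← ZMod.intCast_zmod_eq_zero_iff_dvd]
      push_cast
      rw [hY]
      intro h
      exact h2y (by linear_combination h)

/-- local solutions which are not too close to the orthogonal complement of the isotropic vector -/
theorem local_data {p : ℕ} (hp : p.Prime) (hloc : p % 3 ≠ 1 → ∃ w, Good p (Q.f w)) (N : ℕ)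
    (w0 : M) {s : ℤ} {k : ℕ} (hk : ¬ (p : ℤ) ^ k ∣ 6 * s) :
    ∃ (w : M) (n : ℤ), (p : ℤ) ^ N ∣ Q.f w - (n ^ 2 + n + 1) ∧
      ¬ (p : ℤ) ^ k ∣ Q.b w w0 - s * (2 * n + 1) := by
  have hpp := Nat.prime_iff_prime_int.1 hp
  obtain ⟨w, n, c, h1, hc, h2⟩ := local_sol Q hp hloc N
  by_cases h3 : (p : ℤ) ^ k ∣ Q.b w w0 - s * (2 * n + 1)
  · refine ⟨w, -1 - n, ?_, fun h4 => hk ?_⟩
    · rw [show (-1 - n) ^ 2 + (-1 - n) + 1 = n ^ 2 + n + 1 by ring]
      exact h1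
    · have h5 : (p : ℤ) ^ k ∣ 2 * s * (2 * n + 1) := by
        have := dvd_sub h4 h3
        rwa [show Q.b w w0 - s * (2 * (-1 - n) + 1) - (Q.b w w0 - s * (2 * n + 1)) =
          2 * s * (2 * n + 1) by ring] at this
      have h6 : (p : ℤ) ^ k ∣ 6 * s * c := by
        refine h5.trans ?_
        have := mul_dvd_mul_left (2 * s) h2
        rwa [show 2 * s * (3 * c) = 6 * s * c by ring] at this
      have hcop : IsCoprime ((p : ℤ) ^ k) c := ((Prime.coprime_iff_not_dvd hpp).2 hc).pow_left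
      exact hcop.dvd_of_dvd_mul_right h6
  · exact ⟨w, n, h1, h3⟩

end Pool.Agent.U758.CF
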