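import Pool.Agent.U758.CF.Hodge

/-!
# The divisors `C_8` and `C_18`
-/

set_option autoImplicit false

namespace Pool.Agent.U758.CF

open Pool.Agent.Y95.Q Pool.Agent.Y95.Q.H4 Pool.Agent.N801.CF Pool.Agent.X328.CF Module

variable {X : CubicFourfold} {H : H4 X}

/-- `C_8` -/
theorem hilbert_eight (hH : H.IsCohomology) {P v : Fin 23 → ℤ} (hP : H.IsHodge P)
    (h8 : H.disc P = 8) (hv : H.IsHodge v) (h4 : ¬ 4 ∣ H.disc v) : HilbertSquare H := by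
  refine hilbert_of_form hH (four (hq hH) (w0 := ⟨P, hP⟩) (w := ⟨v, hv⟩) ?_ ?_)
  · rw [hq_f]
    show H.disc P / 2 = 4
    omega
  · rw [hq_f]
    show H.disc v / 2 % 2 = 1
    have := disc_even hH v
    omega

/-- the products with a class of discriminant divisible by `3` -/
theorem three_dvd_b {T : Fin 23 → ℤ} (h3 : 3 ∣ H.disc T) : 3 ∣ H.ip H.h T := by
  have h1 : (3 : ℤ) ∣ H.ip H.h T ^ 2 := by
    obtain ⟨c, hc⟩ := h3
    exact ⟨H.ip T T - c, by rw [disc] at hc; linear_combination -hc⟩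
  exact Int.prime_three.dvd_of_dvd_pow h1

theorem hilbert_eighteen (hH : H.IsCohomology) {T v : Fin 23 → ℤ} (hT : H.IsHodge T)
    (h18 : H.disc T = 18) (hv : H.IsHodge v)
    (h : ¬ 3 ∣ H.disc v ∨ H.disc v % 18 = 6 ∨
      ¬ 9 ∣ 3 * H.ip v T - H.ip H.h v * H.ip H.h T) : HilbertSquare H := by
  have h3 : 3 ∣ H.ip H.h T := three_dvd_b (by rw [h18]; norm_num)
  have hb : (3 : ℤ) ∣ (hq hH).b ⟨v, hv⟩ ⟨T, hT⟩ := by
    show 3 ∣ 3 * H.ip v T - H.ip H.h v * H.ip H.h T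
    exact dvd_sub (dvd_mul_right _ _) (h3.mul_left _)
  have h0 : (hq hH).f ⟨T, hT⟩ = 9 := by
    rw [hq_f]
    show H.disc T / 2 = 9
    omega
  have e1 := disc_half hH v
  have e2 := disc_mod_three (H := H) v
  have hf : (hq hH).f ⟨v, hv⟩ = H.disc v / 2 := rfl
  by_cases hd : 3 ∣ H.disc v
  · refine hilbert_of_form hH (nine_three (hq hH) h0 hb ?_)
    rw [hf]
    rcases h with h | h | h
    · exact absurd hd h
    · left
      omega
    · right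
      refine ⟨by omega, h⟩
  · refine hilbert_of_form hH (nine_one (hq hH) h0 hb ?_)
    rw [hf]
    omega

theorem hasK3_iff_eight (hH : H.IsCohomology) {P : Fin 23 → ℤ} (hP : H.IsHodge P)
    (h8 : H.disc P = 8) :
    (HilbertSquare H ↔ H.HasK3) ∧ (HilbertSquare H ↔ ∃ v, H.IsHodge v ∧ ¬ 4 ∣ H.disc v) := by
  have h1 : HilbertSquare H → H.HasK3 := hasK3_of_hilbert hH
  have h2 : H.HasK3 → ∃ v, H.IsHodge v ∧ ¬ 4 ∣ H.disc v := fun ⟨v, hv, _, hd⟩ => ⟨v, hv, hd.2.1⟩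
  have h3 : (∃ v, H.IsHodge v ∧ ¬ 4 ∣ H.disc v) → HilbertSquare H := fun ⟨v, hv, h4⟩ =>
    hilbert_eight hH hP h8 hv h4
  exact ⟨⟨h1, fun h => h3 (h2 h)⟩, ⟨fun h => h2 (h1 h), h3⟩⟩

theorem hasK3_iff_eighteen (hH : H.IsCohomology) {T : Fin 23 → ℤ} (hT : H.IsHodge T)
    (h18 : H.disc T = 18) :
    (HilbertSquare H ↔ H.HasK3) ∧
    (HilbertSquare H ↔ ∃ v, H.IsHodge v ∧ (¬ 3 ∣ H.disc v ∨ H.disc v % 18 = 6)) := by
  have h1 : HilbertSquare H → H.HasK3 := hasK3_of_hilbert hH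
  have h2 : H.HasK3 → ∃ v, H.IsHodge v ∧ (¬ 3 ∣ H.disc v ∨ H.disc v % 18 = 6) :=
    fun ⟨v, hv, _, hd⟩ =>
      ⟨v, hv, (admAt_of_adm (disc_even hH v) hd Nat.prime_three).2.1 rfl⟩
  have h3 : (∃ v, H.IsHodge v ∧ (¬ 3 ∣ H.disc v ∨ H.disc v % 18 = 6)) → HilbertSquare H :=
    fun ⟨v, hv, h⟩ => hilbert_eighteen hH hT h18 hv (by tauto)
  exact ⟨⟨h1, fun h => h3 (h2 h)⟩, ⟨fun h => h2 (h1 h), h3⟩⟩

/-- the criterion of Hassett -/
theorem hilbert_of_odd (hH : H.IsCohomology) (P : X.Plane) {T : Fin 23 → ℤ} (hT : H.IsHodge T)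
    (ho : Odd (H.ip T (H.h - H.cl P))) : HilbertSquare H := by
  obtain ⟨p1, p2, p3⟩ := (hH.cl_range (H.cl P)).1 ⟨P, rfl⟩
  have h8 : H.disc (H.cl P) = 8 := by
    rw [disc, hH.comm H.h, p2, p3]
    norm_num
  by_cases h4 : 4 ∣ H.disc T
  · refine hilbert_eight hH p1 h8 (H.isHodge_add hT p1) ?_
    rw [disc_sum hH, h8, hH.comm H.h (H.cl P), p2, hH.comm H.h T]
    rw [ip_sub_right] at ho
    obtain ⟨c, hc⟩ := ho
    omega
  · exact hilbert_eight hH p1 h8 hT h4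

/-- the criterion of Addington, Hassett, Tschinkel and Várilly-Alvarado -/
theorem hilbert_of_sextic (hH : H.IsCohomology) {T v : Fin 23 → ℤ} (hT : H.IsHodge T)
    (hTT : H.ip T T = 18) (hTh : H.ip T H.h = 6) (hv : H.IsHodge v)
    (h3 : ¬ 3 ∣ H.ip v ((4 : ℤ) • H.h - T)) : HilbertSquare H := by
  have hhT : H.ip H.h T = 6 := by rw [hH.comm]; exact hTh
  have h18 : H.disc T = 18 := by
    rw [disc, hTT, hhT]
    norm_num
  refine hilbert_eighteen hH hT h18 hv ?_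
  by_cases hd : 3 ∣ H.disc v
  · right
    right
    obtain ⟨c, hc⟩ := three_dvd_b hd
    rw [ip_sub_right, ip_smul_right, hH.comm v H.h, hc] at h3
    rw [hhT, hc]
    omega
  · left
    exact hd

/-- a divisor `C_d` with `a ^ 2 d = 2 n ^ 2 + 2 n + 2` -/
theorem hilbert_divisor {d : ℤ} (a n : ℤ) (h : a ^ 2 * d = 2 * n ^ 2 + 2 * n + 2)
    (hd : InDivisor H d) : HilbertSquare H := ⟨d, ⟨a, n, h⟩, hd⟩

end Pool.Agent.U758.CF
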