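import Pool.Agent.N801.CF.Bridge

/-!
# Values `n ^ 2 + n + 1` of integral quadratic forms with a class of square norm
-/

set_option autoImplicit false

namespace Pool.Agent.U758.CF

open Pool.Agent.N801.CF

variable {M : Type*} [AddCommGroup M] (Q : QF M)

/-- an integral quadratic form which takes a square value at `w0`: it is enough to solve the equation
modulo `4 g` -/
theorem trick {w0 : M} {s : ℤ} (h0 : Q.f w0 = s ^ 2) (w : M) (m g : ℤ)
    (hg : Q.b w w0 - s * m = g) (h : 4 * g ∣ 4 * Q.f w - m ^ 2 - 3) :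
    ∃ (v : M) (n : ℤ), Q.f v = n ^ 2 + n + 1 := by
  obtain ⟨k, hk⟩ := h
  have e : 4 * Q.f (w + (-k) • w0) = (m - 2 * k * s) ^ 2 + 3 := by
    rw [Q.f_add, Q.f_smul, Q.b_smul', h0]
    linear_combination hk + 4 * k * (-hg)
  have hodd : (m - 2 * k * s) % 2 = 1 := by
    by_contra hc
    have h2 : (m - 2 * k * s) % 2 = 0 := by omega
    obtain ⟨q, hq⟩ : ∃ q, m - 2 * k * s = 2 * q := ⟨(m - 2 * k * s) / 2, by omega⟩
    rw [hq] at e
    have : 4 * (Q.f (w + (-k) • w0) - q ^ 2) = 3 := by linear_combination e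
    omega
  obtain ⟨n, hn⟩ : ∃ n, m - 2 * k * s = 2 * n + 1 := ⟨(m - 2 * k * s) / 2, by omega⟩
  refine ⟨w + (-k) • w0, n, ?_⟩
  rw [hn] at e
  have : 4 * Q.f (w + (-k) • w0) = 4 * (n ^ 2 + n + 1) := by linear_combination e
  omega

theorem odd_sq_mod_eight {m : ℤ} (h : m % 2 = 1) : m ^ 2 % 8 = 1 := by
  have h1 : m % 8 = 1 ∨ m % 8 = 3 ∨ m % 8 = 5 ∨ m % 8 = 7 := by omega
  rw [pow_two, Int.mul_emod]
  rcases h1 with h | h | h | h <;> rw [h] <;> norm_num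

/-- forms with the value `4` -/
theorem four {w0 w : M} (h0 : Q.f w0 = 4) (h : Q.f w % 2 = 1) :
    ∃ (v : M) (n : ℤ), Q.f v = n ^ 2 + n + 1 := by
  have h0' : Q.f w0 = 2 ^ 2 := by rw [h0]; norm_num
  rcases Int.emod_two_eq_zero_or_one (Q.b w w0) with hb | hb
  · obtain ⟨β, hβ⟩ : ∃ β, Q.b w w0 = 2 * β := ⟨Q.b w w0 / 2, by omega⟩
    rcases Int.emod_two_eq_zero_or_one β with h2 | h2
    · refine trick Q h0' w (β - 1) 2 (by rw [hβ]; ring) ?_
      have := odd_sq_mod_eight (m := β - 1) (by omega)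
      omega
    · obtain ⟨k, hk⟩ : ∃ k, β = 2 * k + 1 := ⟨β / 2, by omega⟩
      have hk2 : k * (k + 1) % 2 = 0 := by
        rcases Int.emod_two_eq_zero_or_one k with h | h
        · rw [Int.mul_emod, h]; norm_num
        · rw [Int.mul_emod, show (k + 1) % 2 = 0 by omega]; norm_num
      have e1 : (β - 2) ^ 2 = 4 * (k * (k + 1)) - 8 * k + 1 := by rw [hk]; ring
      have e2 : (β + 2) ^ 2 = 4 * (k * (k + 1)) + 8 * k + 9 := by rw [hk]; ring
      by_cases hc : (4 * 4 : ℤ) ∣ 4 * Q.f w - (β - 2) ^ 2 - 3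
      · exact trick Q h0' w (β - 2) 4 (by rw [hβ]; ring) hc
      · refine trick Q h0' w (β + 2) (-4) (by rw [hβ]; ring) ?_
        rw [e1] at hc
        rw [e2, show (4 * -4 : ℤ) = -16 by norm_num, neg_dvd]
        omega
  · have hsq := odd_sq_mod_eight hb
    obtain ⟨m, hm⟩ : ∃ m, -(Q.b w w0) ^ 2 - 1 = 2 * m := ⟨(-(Q.b w w0) ^ 2 - 1) / 2, by omega⟩
    refine trick Q h0' ((-(Q.b w w0)) • w) m 1 ?_ ?_
    · rw [Q.b_smul]
      linear_combination hm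
    · have hm2 : m % 2 = 1 := by omega
      have := odd_sq_mod_eight hm2
      omega

/-- forms with the value `9`, values not divisible by `3` -/
theorem nine_one {w0 w : M} (h0 : Q.f w0 = 9) (hb : (3 : ℤ) ∣ Q.b w w0) (h : Q.f w % 3 = 1) :
    ∃ (v : M) (n : ℤ), Q.f v = n ^ 2 + n + 1 := by
  have h0' : Q.f w0 = 3 ^ 2 := by rw [h0]; norm_num
  obtain ⟨c, hc⟩ := hb
  have hb2 : Q.b ((2 : ℤ) • w) w0 = 3 * (2 * c) := by rw [Q.b_smul, hc]; ring
  have hf2 : Q.f ((2 : ℤ) • w) = 4 * Q.f w := by rw [Q.f_smul]; norm_num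
  have key : ∀ γ : ℤ, (γ = 1 ∨ γ = -1) → (2 * c - γ) % 3 ≠ 0 →
      ∃ (v : M) (n : ℤ), Q.f v = n ^ 2 + n + 1 := by
    intro γ hγ h3
    refine trick Q h0' ((2 : ℤ) • w) (2 * c - γ) (3 * γ) (by rw [hb2]; ring) ?_
    rw [hf2]
    have h8 := odd_sq_mod_eight (m := 2 * c - γ) (by omega)
    have h9 : (2 * c - γ) ^ 2 % 3 = 1 := by
      have h1 : (2 * c - γ) % 3 = 1 ∨ (2 * c - γ) % 3 = 2 := by omega
      rw [pow_two, Int.mul_emod]
      rcases h1 with h | h <;> rw [h] <;> norm_num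
    rcases hγ with rfl | rfl
    · omega
    · rw [show (4 * (3 * -1) : ℤ) = -12 by norm_num, neg_dvd]
      omega
  by_cases h1 : (2 * c - 1) % 3 = 0
  · exact key (-1) (Or.inr rfl) (by omega)
  · exact key 1 (Or.inl rfl) h1

/-- forms with the value `9`, values `3` modulo `9` -/
theorem nine_three {w0 w : M} (h0 : Q.f w0 = 9) (hb : (3 : ℤ) ∣ Q.b w w0)
    (h : Q.f w % 9 = 3 ∨ Q.f w % 3 = 0 ∧ ¬ (9 : ℤ) ∣ Q.b w w0) :
    ∃ (v : M) (n : ℤ), Q.f v = n ^ 2 + n + 1 := by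
  have h0' : Q.f w0 = 3 ^ 2 := by rw [h0]; norm_num
  obtain ⟨c, hc⟩ := hb
  have hb2 : Q.b ((2 : ℤ) • w) w0 = 3 * (2 * c) := by rw [Q.b_smul, hc]; ring
  have hf2 : Q.f ((2 : ℤ) • w) = 4 * Q.f w := by rw [Q.f_smul]; norm_num
  by_cases hc3 : c % 3 = 0
  · have h3 : Q.f w % 9 = 3 := by
      rcases h with h | ⟨-, h⟩
      · exact h
      · exfalso; omega
    refine trick Q h0' ((2 : ℤ) • w) (2 * c - 3) 9 (by rw [hb2]; ring) ?_
    rw [hf2]
    have h8 := odd_sq_mod_eight (m := 2 * c - 3) (by omega)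
    obtain ⟨q, hq⟩ : ∃ q, 2 * c - 3 = 3 * q := ⟨(2 * c - 3) / 3, by omega⟩
    have h9 : (2 * c - 3) ^ 2 % 9 = 0 := by rw [hq, mul_pow]; omega
    omega
  · have h3 : Q.f w % 3 = 0 := by omega
    have key : ∀ γ : ℤ, (γ = 1 ∨ γ = -1) → (2 * c - γ) % 3 = 0 →
        ∃ (v : M) (n : ℤ), Q.f v = n ^ 2 + n + 1 := by
      intro γ hγ h3'
      refine trick Q h0' ((2 : ℤ) • w) (2 * c - γ) (3 * γ) (by rw [hb2]; ring) ?_
      rw [hf2]
      have h8 := odd_sq_mod_eight (m := 2 * c - γ) (by omega)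
      obtain ⟨q, hq⟩ : ∃ q, 2 * c - γ = 3 * q := ⟨(2 * c - γ) / 3, by omega⟩
      have h9 : (2 * c - γ) ^ 2 % 3 = 0 := by rw [hq, mul_pow]; omega
      rcases hγ with rfl | rfl
      · omega
      · rw [show (4 * (3 * -1) : ℤ) = -12 by norm_num, neg_dvd]
        omega
    by_cases h1 : (2 * c - 1) % 3 = 0
    · exact key 1 (Or.inl rfl) h1
    · exact key (-1) (Or.inr rfl) (by
        have h5 : c % 3 = 1 ∨ c % 3 = 2 := by omega
        rcases h5 with h5 | h5 <;> omega)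

end Pool.Agent.U758.CF
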